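import Pool.Agent.V2450.Zagier.Core

/-!
# Zagier's conjecture: descent to subfields

Let `n ≥ 2`, let `F` be a number field, `Γ` a group of automorphisms of `F` and `V = K_{2n-1}(F)_ℚ`, a vector
space over `ℚ` of the dimension `d = d_n` (Borel) on which `Γ` acts by `ρ`.

* `Borel r Z` for the Borel regulator `r : V → ℝ^d` (divided by `i` if `n` is even) and the number
  `Z = ζ_F(n) π^{-n d_{n-1}} d_F^{1/2}`: Borel's theorem, the determinant of the regulators of a basis of
  `V` is a nonzero rational multiple of `Z`.
* `Identity B r Z`: Zagier's identity up to a rational factor, for the subspace `B ⊆ V` which is the image of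
  `l_n : ker δ_n ⊗ ℚ → V`: there are elements `y_1, …, y_d` of `B` such that the determinant of their
  regulators is a nonzero rational multiple of `Z`.
* For a subgroup `H` of `Γ` the space `inv ρ H` of the invariants is `K_{2n-1}(F^H)_ℚ` (Galois descent), and
  `B H ⊆ inv ρ H` is the image of `l_n` for the fixed field `F^H`. `IsData ρ B` lists the known facts:
  `B H ⊆ inv ρ H`, `B H' ⊆ B H` if `H ⊆ H'` (that is `F^{H'} ⊆ F^H`), and `B ⊥` (the image of `l_n` for `F`) is
  stable under `Γ`.
* `Zag ρ B H` is `B H = inv ρ H`; by the first part of the theorem this is Zagier's conjecture for the field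
  `F^H` (`F^⊥ = F`).

If `n` is odd, `ℝ ⊗ V` is the permutation representation of `Γ` on the archimedean places of `F` (Borel).
Hence the hypothesis of part (2) is true if `F` is an imaginary Galois extension of `ℚ`, `Γ = Gal(F/ℚ)` and
`c` is the complex conjugation of an embedding; then `F^c` is the maximal real subfield in this
embedding. And if `F` is a CM field, `c` acts trivially on `V`.
A partition of a group `A` as in (3) exists for example for the noncyclic groups of order `p²` (the subgroups
of order `p`), for the dihedral groups (the rotations and the groups generated by the reflections) and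
for the Frobenius groups (the kernel and the complements).
-/

set_option autoImplicit false

namespace Pool.Agent.Results.MP_f01982_nt.DescentToSubfields

open Pool.Agent.V2450.Zagier

/-- (1) Zagier's identity holds for `F`, up to a rational factor, if and only if `l_n` is surjective
onto `K_{2n-1}(F)_ℚ`. (2) Let `c` be an automorphism of `F` such that `V` is generated, as a
representation of `Γ`, by a vector which is fixed by `c` (this is so if `n` is odd and `F` is Galois over
`ℚ` and imaginary): Zagier's conjecture for `F^c` implies Zagier's conjecture for `F`. The same is true if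
`c` acts trivially on `V` (if `n` is odd and `F` is a CM field). (3) If the group of automorphisms of `F`
has a subgroup `A` with a partition into more than one subgroups `C ∈ Q`, Zagier's conjecture for the
fields `F^C`, `C ∈ Q`, implies Zagier's conjecture for `F`. (4) The general criterion: the invariants of
the subgroups `H ∈ S` and their translates span `V`. -/
theorem result :
    (∀ (V : Type) [AddCommGroup V] [Module ℚ V] (B : Submodule ℚ V) (d : ℕ)
      (r : V →ₗ[ℚ] (Fin d → ℝ)) (Z : ℝ), Z ≠ 0 → Borel r Z → (Identity B r Z ↔ B = ⊤)) ∧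
    (∀ (Γ : Type) [Group Γ] [Fintype Γ] (V : Type) [AddCommGroup V] [Module ℚ V]
      (ρ : Representation ℚ Γ V) (B : Subgroup Γ → Submodule ℚ V), IsData ρ B →
      (∀ c : Γ, (∃ v ∈ inv ρ (Subgroup.zpowers c),
          Submodule.span ℚ (Set.range fun g : Γ => ρ g v) = ⊤) →
        Zag ρ B (Subgroup.zpowers c) → Zag ρ B ⊥) ∧
      (∀ c : Γ, (∀ v, ρ c v = v) → Zag ρ B (Subgroup.zpowers c) → Zag ρ B ⊥) ∧
      (∀ (A : Subgroup Γ) (Q : Finset (Subgroup Γ)), (∀ C ∈ Q, C ≤ A) →
        (∀ a ∈ A, a ≠ 1 → ∃! C, C ∈ Q ∧ a ∈ C) → 1 < Q.card → (∀ C ∈ Q, Zag ρ B C) → Zag ρ B ⊥) ∧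
      (∀ S : Set (Subgroup Γ),
        Submodule.span ℚ {w | ∃ H ∈ S, ∃ g : Γ, ∃ v ∈ inv ρ H, w = ρ g v} = ⊤ →
        (∀ H ∈ S, Zag ρ B H) → Zag ρ B ⊥)) := by
  refine ⟨fun V _ _ B d r Z hZ hB => identity_iff B r hZ hB, ?_⟩
  intro Γ _ _ V _ _ ρ B hB
  refine ⟨?_, ?_, ?_, fun S hS hZ => zag_of_span hB S hS hZ⟩
  · rintro c ⟨v, hv, hspan⟩ hZ
    refine zag_of_span hB {Subgroup.zpowers c} ?_ ?_
    · rw [eq_top_iff, ← hspan]
      refine Submodule.span_mono ?_
      rintro _ ⟨g, rfl⟩
      exact ⟨Subgroup.zpowers c, rfl, g, v, hv, rfl⟩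
    · rintro H rfl
      exact hZ
  · intro c hc hZ
    refine zag_bot_of hB fun v => ?_
    have hv : v ∈ inv ρ (Subgroup.zpowers c) := by
      rintro h ⟨m, rfl⟩
      have h1 : ∀ k : ℕ, ρ (c ^ k) v = v := by
        intro k
        induction k with
        | zero => rw [pow_zero, map_one, Module.End.one_apply]
        | succ k ih => rw [pow_succ, map_mul, Module.End.mul_apply, hc, ih]
      obtain ⟨k, hk⟩ := (mem_powers_iff_mem_zpowers (x := c)).2 (Subgroup.mem_zpowers_iff.2 ⟨m, rfl⟩)
      change ρ (c ^ m) v = v
      have hk' : c ^ k = c ^ m := hk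
      rw [← hk', h1]
    have := mem_of_zag hB hZ hv 1
    rwa [map_one, Module.End.one_apply] at this
  · intro A Q hle hpart hcard hZ
    classical
    refine zag_of_partition hB A Q hle ?_ hcard hZ
    intro a ha ha1
    obtain ⟨C, hC, huniq⟩ := hpart a ha ha1
    rw [Finset.card_eq_one]
    refine ⟨C, ?_⟩
    ext D
    rw [Finset.mem_filter, Finset.mem_singleton]
    constructor
    · exact fun h => huniq D h
    · rintro rfl
      exact hC

end Pool.Agent.Results.MP_f01982_nt.DescentToSubfields
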