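import Pool.Agent.V11288.LZ.Par

/-!
# The leading coefficient of `ζ_F` at `s = 1 - n` from the splitting of primes

Let `F` be a number field and `n ≥ 2`.  By the functional equation the quotient of `ζ_F(n)` by
`π^{n d_{n-1}} d_F^{-1/2} · π^{(n-1) d_n} ζ_F^*(1-n)` is rational, where `d_n` is the order and `ζ_F^*(1-n)` the
leading coefficient of `ζ_F` at `s = 1 - n`.  So Zagier's conjecture says that
`ζ_F^*(1-n) ∈ ℚ^* π^{-(n-1) d_n} det |𝓛̃_n(σ_j(y_i))|` for some `y_i ∈ ker δ_n ⊗ ℚ`.  We show that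
`ζ_F^*(1-n)` is determined by explicit sums over the primes of `F`, at a point far away from the domain of
convergence.  Let `γ > π/2`, and for `X > 1`, with `u = k log Nv / log X`,

`W(X) = ∑_v ∑_{k ≥ 1} Nv^{k(n-1)} / k · e^{iγu} / Γ(1 + u)`,  `Λ_γ = ∫_0^∞ (e^{-t} - e^{iγt}/Γ(1+t)) dt/t`

(the sum over all primes `v` of `F`; only the splitting of the rational primes in `F` enters).

1. `W(X)` converges absolutely and, for `X → ∞`,
   `W(X) = log |ζ_F^*(1-n)| - iπz - r (log log X - Λ_γ) + O(1/log X)`, where `r` is the order of `ζ_F` at `1 - n`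
   and `z` the number of the zeros minus the number of the poles of `ζ_F` on the real half line `(1 - n, ∞)`.

2. For `r ∈ ℤ` and `D ≠ 0`: `ζ_F` has the order `r` and `ζ_F^*(1-n) ∈ ℚ^* D` if and only if
   `(log X)^r exp W(X) → e^{rΛ_γ} x D` for some `x ∈ ℚ^*`.

With `r = d_n` and `D = π^{-(n-1) d_n} det |𝓛̃_n(σ_j(y_i))|` part 2 turns the conjecture for `F` and `n` (for given
`y_i`) into a statement on the splitting of primes in `F`.  No hypothesis on the zeros of `ζ_F` is used; of the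
continuation only that `ζ_F` is meromorphic at the points of the real interval `[1 - n, 1]`.

Proof.  `Pool.Agent.V11288.LZ` (the law of rotated Mittag-Leffler sums at all real points).
-/

set_option autoImplicit false

namespace Pool.Agent.Results.MP_f01982_nt.LeadingTermsByPrimes

open Filter Topology Set NumberField IsDedekindDomain

variable {F : Type} [Field F] [NumberField F]

/-- The norm of `v`. -/
noncomputable def nrm (v : HeightOneSpectrum (𝓞 F)) : ℕ := Ideal.absNorm v.asIdeal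

/-- `Z = ζ_F`: the sum of `N𝔞^{-s}` over the nonzero ideals of `𝓞_F` for `Re s > 1`, meromorphic at the points
of the real interval `[1 - n, 1]`. -/
structure IsZeta (F : Type) [Field F] [NumberField F] (n : ℕ) (Z : ℂ → ℂ) : Prop where
  mero : ∀ x ∈ Icc (1 - (n : ℝ)) 1, MeromorphicAt Z (x : ℂ)
  sum : ∀ s : ℂ, 1 < s.re →
    Z s = ∑' 𝔞 : {𝔞 : Ideal (𝓞 F) // 𝔞 ≠ 0}, ((Ideal.absNorm 𝔞.1 : ℕ) : ℂ) ^ (-s)

/-- The term of `W(X)` at `(v, k)`. -/
noncomputable def term (n : ℕ) (γ X : ℝ) (v : HeightOneSpectrum (𝓞 F)) (k : ℕ) : ℂ :=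
  (nrm v : ℂ) ^ (k * ((n : ℤ) - 1)) / k *
    (Complex.exp ((γ * (k * Real.log (nrm v) / Real.log X) : ℝ) * Complex.I) /
      (Real.Gamma (1 + k * Real.log (nrm v) / Real.log X) : ℂ))

/-- `W(X)`, the sum over all primes `v` of `F` and `k ≥ 1` (here `k = x.2 + 1`). -/
noncomputable def W (F : Type) [Field F] [NumberField F] (n : ℕ) (γ X : ℝ) : ℂ :=
  ∑' x : HeightOneSpectrum (𝓞 F) × ℕ, term n γ X x.1 (x.2 + 1)

/-- `Λ_γ = ∫_0^∞ (e^{-t} - e^{iγt} / Γ(1 + t)) dt / t`. -/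
noncomputable def Lam (γ : ℝ) : ℂ := ∫ t in Ioi (0 : ℝ),
  (Complex.exp (-(t : ℂ)) - Complex.exp ((γ * t : ℝ) * Complex.I) * ((Real.Gamma (1 + t))⁻¹ : ℝ)) / t

/-- The order at `1 - n` is `r` and the leading coefficient is `B`: `Z(s)/(s - (1-n))^r → B ≠ 0`. -/
def LeadingAt (Z : ℂ → ℂ) (n : ℕ) (r : ℤ) (B : ℂ) : Prop :=
  B ≠ 0 ∧ Tendsto (fun s : ℂ => Z s / (s - (1 - n)) ^ r) (𝓝[≠] (1 - (n : ℂ))) (𝓝 B)

/-- The number of the zeros minus the number of the poles of `Z` on the real half line `(1 - n, ∞)`. -/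
noncomputable def excess (Z : ℂ → ℂ) (n : ℕ) : ℤ :=
  ∑ᶠ x ∈ Ioi (1 - (n : ℝ)), (meromorphicOrderAt Z (x : ℂ)).untop₀

open Pool.Agent.V11288.LZ

/-- the trivial system -/
def one (_ : (Set.univ : Set (HeightOneSpectrum (𝓞 F)))) (_ : Unit) : ℂ := 1

theorem term_eq (n : ℕ) (γ X : ℝ) (v : (Set.univ : Set (HeightOneSpectrum (𝓞 F)))) (k : ℕ) :
    jterm one (1 - (n : ℝ)) γ X v k = term n γ X v.1 k := by
  have h0 : (((nrm v.1 : ℕ) : ℝ)) ≠ 0 := by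
    have h3 : 2 ≤ nrm v.1 := Pool.Agent.H921R2.TatePole.two_le_nm v.1
    exact_mod_cast (by omega : nrm v.1 ≠ 0)
  unfold jterm term wt one
  have h1 : ((Ideal.absNorm v.1.asIdeal : ℝ) ^ (1 - (n : ℝ)) : ℝ) =
      ((nrm v.1 : ℕ) : ℝ) ^ (1 - (n : ℤ)) := by
    rw [← Real.rpow_intCast]
    push_cast
    rfl
  rw [h1]
  push_cast
  have h2 : ((nrm v.1 : ℕ) : ℂ) ≠ 0 := by exact_mod_cast h0
  have h3 : (((nrm v.1 : ℕ) : ℂ) ^ (1 - (n : ℤ))) ^ k *
      ((nrm v.1 : ℕ) : ℂ) ^ (k * ((n : ℤ) - 1)) = 1 := by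
    rw [← zpow_natCast, ← zpow_mul, ← zpow_add₀ h2]
    have : (1 - (n : ℤ)) * k + k * ((n : ℤ) - 1) = 0 := by ring
    rw [this, zpow_zero]
  rw [eq_inv_of_mul_eq_one_right h3]
  simp only [nrm, one_pow, Finset.univ_unique, Finset.sum_const, Finset.card_singleton, one_smul]
  rw [div_mul_eq_div_div, div_right_comm, one_div]

theorem W_eq (n : ℕ) (γ X : ℝ) :
    jW (S := (Set.univ : Set (HeightOneSpectrum (𝓞 F)))) one (1 - (n : ℝ)) γ X = W F n γ X := by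
  unfold jW W
  have h1 : ∀ x : ↥(Set.univ : Set (HeightOneSpectrum (𝓞 F))) × ℕ,
      jterm one (1 - (n : ℝ)) γ X x.1 (x.2 + 1) = term n γ X x.1.1 (x.2 + 1) :=
    fun x => term_eq n γ X x.1 (x.2 + 1)
  rw [tsum_congr h1]
  exact ((Equiv.Set.univ (HeightOneSpectrum (𝓞 F))).prodCongr (Equiv.refl ℕ)).tsum_eq
    (fun x : HeightOneSpectrum (𝓞 F) × ℕ => term n γ X x.1 (x.2 + 1))

theorem euler {n : ℕ} {Z : ℂ → ℂ} (hZ : IsZeta F n Z) (s : ℂ) (hs : 1 < s.re) :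
    Z s = ∏' v : (Set.univ : Set (HeightOneSpectrum (𝓞 F))), ∏ j : Unit,
      (1 - one v j * ((Ideal.absNorm v.1.asIdeal : ℕ) : ℂ) ^ (-s))⁻¹ := by
  have hc : ∀ 𝔞 𝔟 : Ideal (𝓞 F), PrimeTo ∅ 𝔞 → PrimeTo ∅ 𝔟 →
      (fun _ : Ideal (𝓞 F) => (1 : Unit)) (𝔞 * 𝔟) = 1 * 1 := fun _ _ _ _ => rfl
  have h1 := hasProd_psi (S := (∅ : Set (HeightOneSpectrum (𝓞 F))))
    (cls := fun _ => (1 : Unit)) hc 1 hs
  have h2 := LI_eq (S := (∅ : Set (HeightOneSpectrum (𝓞 F)))) (cls := fun _ => (1 : Unit)) hc 1 hs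
  have h3 : psum' (∅ : Set (HeightOneSpectrum (𝓞 F))) (fun _ => (1 : Unit)) 1 s = Z s := by
    rw [hZ.sum s hs]
    unfold psum'
    refine (Equiv.subtypeEquivRight fun 𝔞 => ?_).tsum_eq
      (fun 𝔞 : {𝔞 : Ideal (𝓞 F) // 𝔞 ≠ 0} => ((Ideal.absNorm 𝔞.1 : ℕ) : ℂ) ^ (-s))
    simp [PrimeTo]
  rw [finsum_eq_sum_of_fintype] at h2
  have h4 : ∑ g : Unit, (((1 : Unit →* ℂˣ) g : ℂˣ) : ℂ) *
      psum' (∅ : Set (HeightOneSpectrum (𝓞 F))) (fun _ => (1 : Unit)) g s = Z s := by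
    rw [← h3]
    simp
  rw [h4] at h2
  rw [← h2, ← h1.tprod_eq]
  have hset : {v : HeightOneSpectrum (𝓞 F) | v ∉ (∅ : Set (HeightOneSpectrum (𝓞 F)))} = Set.univ := by
    ext v
    simp
  refine (Equiv.setCongr hset).tprod_eq (fun v : (Set.univ : Set (HeightOneSpectrum (𝓞 F))) =>
    ∏ j : Unit, (1 - one v j * ((Ideal.absNorm v.1.asIdeal : ℕ) : ℂ) ^ (-s))⁻¹) |>.symm.trans ?_ |>.symm
  refine tprod_congr fun v => ?_
  simp [one]

/-- **The leading coefficient of `ζ_F` at `1 - n` from the splitting of primes.** -/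
theorem result (n : ℕ) (_ : 2 ≤ n) (Z : ℂ → ℂ) (hZ : IsZeta F n Z) (γ : ℝ) (hγ : Real.pi / 2 < γ) :
    (∀ X : ℝ, 1 < X → Summable fun x : HeightOneSpectrum (𝓞 F) × ℕ => ‖term n γ X x.1 (x.2 + 1)‖) ∧
    (∃ (r : ℤ) (l : ℝ), meromorphicOrderAt Z (1 - (n : ℂ)) = r ∧ LeadingAt Z n r l ∧
      (fun X : ℝ => W F n γ X - (Real.log |l| - Complex.I * Real.pi * excess Z n -
        r * (Real.log (Real.log X) - Lam γ))) =O[atTop] (fun X : ℝ => 1 / Real.log X)) ∧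
    ∀ (r : ℤ) (D : ℂ), D ≠ 0 → ((∃ x : ℚ, x ≠ 0 ∧ LeadingAt Z n r (x * D)) ↔
      ∃ x : ℚ, x ≠ 0 ∧ Tendsto (fun X : ℝ => (Real.log X : ℂ) ^ r * Complex.exp (W F n γ X)) atTop
        (𝓝 (Complex.exp (r * Lam γ) * (x * D)))) := by
  have hα : ∀ (v : (Set.univ : Set (HeightOneSpectrum (𝓞 F)))) (j : Unit),
      ‖one v j‖ ≤ (Ideal.absNorm v.1.asIdeal : ℝ) ^ (0 : ℝ) := fun v j => by
    unfold one
    rw [Real.rpow_zero, norm_one]
  have hm : ∀ x ∈ Icc (1 - (n : ℝ)) (1 + 0), MeromorphicAt Z (x : ℂ) := fun x hx =>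
    hZ.mero x ⟨hx.1, by linarith [hx.2]⟩
  have hp : ∀ s : ℂ, (1 : ℝ) + 0 < s.re → Z s = ∏' v : (Set.univ : Set (HeightOneSpectrum (𝓞 F))),
      ∏ j : Unit, (1 - one v j * ((Ideal.absNorm v.1.asIdeal : ℕ) : ℂ) ^ (-s))⁻¹ := fun s hs =>
    euler hZ s (by linarith)
  have hs0 : ((1 - (n : ℝ) : ℝ) : ℂ) = 1 - (n : ℂ) := by push_cast; rfl
  have hreal : ∀ (v : (Set.univ : Set (HeightOneSpectrum (𝓞 F)))) (k : ℕ),
      ((jmat (one (F := F)) v) ^ k).trace.im = 0 := by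
    intro v k
    rw [jtr]
    simp [one]
  refine ⟨fun X hX => ?_, ?_, fun r D hD => ?_⟩
  · have h1 := jsummable hα (1 - (n : ℝ)) hm hp hγ hX
    have h2 : Summable fun x : ↥(Set.univ : Set (HeightOneSpectrum (𝓞 F))) × ℕ =>
        ‖term n γ X x.1.1 (x.2 + 1)‖ := h1.congr fun x => by rw [term_eq]
    exact (((Equiv.Set.univ (HeightOneSpectrum (𝓞 F))).prodCongr (Equiv.refl ℕ)).summable_iff
      (f := fun x : HeightOneSpectrum (𝓞 F) × ℕ => ‖term n γ X x.1 (x.2 + 1)‖)).1 h2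
  · obtain ⟨r, l, h5, h6, h7, h8⟩ := ((jeul hα).real hreal (1 - (n : ℝ)) hm
      (fun s hs => by rw [jprod, hp s hs])).1 γ hγ
    rw [hs0] at h6 h7
    refine ⟨r, l, h6, ⟨by exact_mod_cast h5, h7⟩, ?_⟩
    refine h8.congr_left fun X => ?_
    rw [jW_eq, W_eq]
    show _ = W F n γ X - (Real.log |l| - Complex.I * Real.pi * excessR Z (1 - (n : ℝ)) -
        r * (Real.log (Real.log X) - Pool.Agent.W187.UR.Lam γ))
    ring
  · refine exists_congr fun x => and_congr_right fun hx => ?_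
    have hB : (x : ℂ) * D ≠ 0 := mul_ne_zero (by exact_mod_cast hx) hD
    have h1 := (jlead hα (1 - (n : ℝ)) hm hp hγ r ((x : ℂ) * D)).1
    rw [hs0] at h1
    simp only [W_eq] at h1
    unfold LeadingAt
    constructor
    · exact fun h => h1.1 h.2
    · exact fun h => ⟨hB, h1.2 h⟩

end Pool.Agent.Results.MP_f01982_nt.LeadingTermsByPrimes
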